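import Mathlib
import Pool.Agent.H32.WS

open Set Filter Topology Function

namespace Pool.Agent.Results.MP_80df55_gt.Different

open Pool.Agent.H32.WS

lemma dense_fin {O : Set C(W, W)} {g : C(W, W)} (h : O ∈ 𝓝 g) :
    ∃ g' ∈ O, (range g').Finite := by
  let _ : UniformSpace W := uniformSpaceOfCompactR1
  obtain ⟨S, s1, s2⟩ := ContinuousMap.hasBasis_compactConvergenceUniformity_of_compact.mem_iff.1
    (mem_nhds_uniformity_iff_right.1 h)
  obtain ⟨n, a, b, c, d⟩ := g.exists_finite_approximation_of_mem_nhds_diagonal (S := S) s1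
  exact ⟨⟨b ∘ a, continuous_of_discreteTopology.comp c⟩,
    s2 (a := (g, ⟨b ∘ a, continuous_of_discreteTopology.comp c⟩)) d rfl,
    (finite_range b).subset (range_comp_subset_range a b)⟩

theorem result (p : W) (f : W ≃ₜ W) (Φ : C(W, W) ≃ₜ C(W, W)) :
    Φ (ContinuousMap.const W p) ≠ (f : C(W, W)) := by
  intro h
  let D : ℕ → Set W := fun n => st {k | k.unpair.1 = n}
  choose A a1 a2 using fun n => nh (Φ.continuous.continuousAt (h ▸ pre f (st_clopen _) :
    {g : C(W, W) | g ⁻¹' D n = (f : C(W, W)) ⁻¹' D n} ∈ 𝓝 (Φ (ContinuousMap.const W p))))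
  have : NeBot (cofinite ⊓ ⨅ n, 𝓟 (A n)) := neBot_of_le (f := p.1)
    (le_inf p.2 (le_iInf fun n => le_principal_iff.2 (a1 n)))
  have : (cofinite : Filter ℕ).IsCountablyGenerated := Nat.cofinite_eq_atTop ▸ inferInstance
  obtain ⟨s, hs⟩ := exists_seq_tendsto (cofinite ⊓ ⨅ n, 𝓟 (A n))
  obtain ⟨q, hq⟩ := ex (A := range s) fun z => by
    obtain ⟨k, hk⟩ := (hs.eventually (mem_inf_of_left z.compl_mem_cofinite)).exists
    exact hk (mem_range_self k)
  have s1 : ∀ n, st (range s) ⊆ st (A n) := fun n r hr => by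
    have : (s ⁻¹' A n)ᶜ.Finite := by
      simpa [← Nat.cofinite_eq_atTop] using
        hs (mem_inf_of_right (mem_iInf_of_mem n (mem_principal_self _)))
    filter_upwards [show range s ∈ (r.1 : Filter ℕ) from hr, r.2 (this.image s).compl_mem_cofinite]
    rintro _ ⟨k, rfl⟩ z
    exact by_contra fun y => z (mem_image_of_mem s y)
  obtain ⟨g, ⟨g', g1, rfl⟩, g2⟩ := dense_fin (Φ.isOpenMap.image_mem_nhds
    (ContinuousMap.eventually_mapsTo (f := ContinuousMap.const W q) isCompact_univ
      (st_clopen (range s)).2 fun _ _ => hq))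
  have : ∀ n, ∃ y ∈ range (Φ g'), y ∈ D n := fun n => by
    obtain ⟨x, hx⟩ := ex (A := {k | k.unpair.1 = n}) (infinite_of_injective_forall_mem
      (f := Nat.pair n) (fun i j z => by simpa using z) (by simp))
    exact ⟨_, ⟨f.symm x, rfl⟩, (a2 n g' fun x => s1 n (g1 trivial)).ge (by simpa using hx)⟩
  choose y y1 y2 using this
  refine infinite_of_injective_forall_mem (fun a b k => ?_) y1 g2
  obtain ⟨n, n1, n2⟩ := Ultrafilter.nonempty_of_mem (inter_mem (y2 a) (show y a ∈ D b from k ▸ y2 b))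
  exact n1.symm.trans n2

end Pool.Agent.Results.MP_80df55_gt.Different
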